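import Mathlib

/-!
# Polynomials in `z` and `exp (2 π i z)`
-/

set_option autoImplicit false

open Polynomial

namespace Pool.Agent.X191.RO

/-- `exp (2 π i z)` -/
noncomputable def EE (z : ℂ) : ℂ := Complex.exp (2 * Real.pi * Complex.I * z)

theorem EE_ne (z : ℂ) : EE z ≠ 0 := Complex.exp_ne_zero _

theorem EE_shift (z : ℂ) : EE (z + 1) = EE z := by
  unfold EE
  rw [mul_add, mul_one, Complex.exp_add, Complex.exp_two_pi_mul_I, mul_one]

theorem EE_shift_nat (z : ℂ) (n : ℕ) : EE (z + n) = EE z := by
  induction n with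
  | zero => simp
  | succ n ih =>
    push_cast
    rw [← add_assoc, EE_shift, ih]

/-- evaluation of a polynomial in two variables at `z` and `exp (2 π i z)` -/
noncomputable def ev (z : ℂ) : ℂ[X][X] →+* ℂ := eval₂RingHom (evalRingHom z) (EE z)

/-- the shift -/
noncomputable def sh : ℂ[X][X] →+* ℂ[X][X] := mapRingHom (compRingHom (X + 1))

theorem ev_shift (z : ℂ) (r : ℂ[X][X]) : ev (z + 1) r = ev z (sh r) := by
  have h : ev (z + 1) = (ev z).comp sh := by
    apply Polynomial.ringHom_ext
    · intro a
      simp [ev, sh]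
    · simp [ev, sh, EE_shift]
  rw [h]
  rfl

theorem sh_inj : Function.Injective (compRingHom (X + 1 : ℂ[X])) := by
  intro p q h
  have e : (X + 1 : ℂ[X]) = X + C 1 := by simp
  rw [coe_compRingHom_apply, coe_compRingHom_apply, e] at h
  by_contra hne
  have h1 : (p - q).comp (X + C 1) ≠ 0 := comp_X_add_C_ne_zero_iff.2 (sub_ne_zero.2 hne)
  rw [sub_comp, h, sub_self] at h1
  exact h1 rfl

theorem leadingCoeff_sh (q : ℂ[X][X]) : (sh q).leadingCoeff = q.leadingCoeff.comp (X + 1) := by
  unfold sh
  rw [coe_mapRingHom, leadingCoeff_map_of_injective sh_inj, coe_compRingHom_apply]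

/-- a polynomial in `z` and `exp (2 π i z)` which vanishes outside a countable set is zero -/
theorem ev_zero {U : Set ℂ} (hU : Uᶜ.Countable) (hs : ∀ z ∈ U, z + 1 ∈ U) (q : ℂ[X][X])
    (h : ∀ z ∈ U, ev z q = 0) : q = 0 := by
  classical
  have hsn : ∀ z ∈ U, ∀ n : ℕ, z + n ∈ U := by
    intro z hz n
    induction n with
    | zero => simpa using hz
    | succ n ih =>
      have := hs _ ih
      push_cast
      rwa [← add_assoc]
  -- the polynomial `∑ E^j q_j (X)`
  have step1 : ∀ z ∈ U, ∑ j ∈ q.support, C (EE z ^ j) * q.coeff j = 0 := by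
    intro z hz
    apply Polynomial.eq_zero_of_infinite_isRoot
    refine Set.Infinite.mono (s := Set.range fun n : ℕ => z + n) ?_ (Set.infinite_range_of_injective ?_)
    · rintro _ ⟨n, rfl⟩
      have h1 := h _ (hsn z hz n)
      unfold ev at h1
      rw [coe_eval₂RingHom, eval₂_eq_sum, sum_def] at h1
      simp only [Set.mem_ofPred_eq, IsRoot.def, eval_finsetSum, eval_mul, eval_C]
      rw [← h1]
      refine Finset.sum_congr rfl fun j _ => ?_
      rw [EE_shift_nat, coe_evalRingHom]
      ring
    · intro m n hmn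
      simpa using hmn
  have hinf : (EE '' U).Infinite := by
    intro hfin
    have h1 : U.Countable := by
      have h2 : U ⊆ ⋃ w ∈ EE '' U, EE ⁻¹' {w} := by
        intro z hz
        simp only [Set.mem_iUnion]
        exact ⟨EE z, ⟨z, hz, rfl⟩, rfl⟩
      refine Set.Countable.mono h2 (hfin.countable.biUnion fun w hw => ?_)
      obtain ⟨z₀, -, rfl⟩ := hw
      refine Set.Countable.mono (s₂ := Set.range fun k : ℤ => z₀ + k) ?_ (Set.countable_range _)
      intro z hz
      have hz' : EE z = EE z₀ := hz
      unfold EE at hz'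
      rw [Complex.exp_eq_exp_iff_exists_int] at hz'
      obtain ⟨k, hk⟩ := hz'
      refine ⟨k, ?_⟩
      have h2pi : (2 * Real.pi * Complex.I : ℂ) ≠ 0 := Complex.two_pi_I_ne_zero
      apply mul_left_cancel₀ h2pi
      simp only
      linear_combination -hk
    have h3 : (Set.univ : Set ℂ).Countable := by
      rw [← Set.union_compl_self U]
      exact h1.union hU
    exact not_countable_complex h3
  ext j d
  rw [coeff_zero, coeff_zero]
  have step2 : ∑ j ∈ q.support, monomial j ((q.coeff j).coeff d) = (0 : ℂ[X]) := by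
    apply Polynomial.eq_zero_of_infinite_isRoot
    refine Set.Infinite.mono ?_ hinf
    rintro _ ⟨z, hz, rfl⟩
    have h1 := congrArg (fun p => p.coeff d) (step1 z hz)
    simp only [finsetSum_coeff, coeff_C_mul, coeff_zero] at h1
    simp only [Set.mem_ofPred_eq, IsRoot.def, eval_finsetSum, eval_monomial]
    rw [← h1]
    exact Finset.sum_congr rfl fun j _ => mul_comm _ _
  have h3 := congrArg (fun p => p.coeff j) step2
  simp only [finsetSum_coeff, coeff_monomial, coeff_zero] at h3
  by_cases hj : j ∈ q.support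
  · rw [Finset.sum_eq_single j] at h3
    · simpa using h3
    · intro i _ hne
      rw [if_neg hne]
    · intro h4
      exact absurd hj h4
  · rw [notMem_support_iff.1 hj, coeff_zero]

end Pool.Agent.X191.RO
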