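import Mathlib

/-!
# Relations between solutions of first order difference equations, abstract form
-/

set_option autoImplicit false

namespace Pool.Agent.X191.RO

variable {M R : Type} [CommRing R]

/-- a relation with few terms -/
theorem minimal (σ : R →+* R) (ev : ℂ → (R →+* ℂ)) (G : M → ℂ → ℂ) (ρ : M → R) (U : Set ℂ)
    (hU : ∀ z ∈ U, z + 1 ∈ U) (hev : ∀ z ∈ U, ∀ r, ev (z + 1) r = ev z (σ r))
    (hG : ∀ m, ∀ z ∈ U, G m (z + 1) = ev z (ρ m) * G m z) (S : Finset M) (q : M → R)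
    (hq : ∃ m ∈ S, q m ≠ 0) (hrel : ∀ z ∈ U, ∑ m ∈ S, ev z (q m) * G m z = 0) :
    ∃ (S' : Finset M) (q' : M → R), S' ⊆ S ∧ S'.Nonempty ∧ (∀ m ∈ S', q' m ≠ 0) ∧
      (∀ z ∈ U, ∑ m ∈ S', ev z (q' m) * G m z = 0) ∧
      ∀ m ∈ S', ∀ m' ∈ S', σ (q' m) * ρ m * q' m' = q' m * (σ (q' m') * ρ m') := by
  classical
  -- the sets with a nonzero relation
  have hex : ∃ k : ℕ, ∃ (S' : Finset M) (q' : M → R), S' ⊆ S ∧ (∃ m ∈ S', q' m ≠ 0) ∧
      (∀ z ∈ U, ∑ m ∈ S', ev z (q' m) * G m z = 0) ∧ S'.card = k :=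
    ⟨_, S, q, subset_rfl, hq, hrel, rfl⟩
  obtain ⟨S', q', hS', hq', hr, hk⟩ := Nat.find_spec hex
  have hall : ∀ m ∈ S', q' m ≠ 0 := by
    intro m hm h0
    obtain ⟨m₀, hm₀, hne⟩ := hq'
    have hmm : m₀ ≠ m := by
      rintro rfl
      exact hne h0
    refine Nat.find_min hex (m := (S'.erase m).card) ?_ ⟨S'.erase m, q', (Finset.erase_subset _ _).trans hS',
      ⟨m₀, Finset.mem_erase.2 ⟨hmm, hm₀⟩, hne⟩, fun z hz => ?_, rfl⟩
    · rw [← hk]
      exact Finset.card_erase_lt_of_mem hm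
    · have h1 := hr z hz
      rw [← Finset.add_sum_erase _ _ hm, h0, map_zero, zero_mul, zero_add] at h1
      exact h1
  refine ⟨S', q', hS', ⟨hq'.choose, hq'.choose_spec.1⟩, hall, hr, fun m hm m' hm' => ?_⟩
  by_contra hne
  -- the difference
  set D : M → R := fun u => σ (q' m) * ρ m * q' u - q' m * (σ (q' u) * ρ u) with hD
  have hD0 : D m = 0 := by
    simp only [hD]
    ring
  refine Nat.find_min hex (m := (S'.erase m).card) ?_ ⟨S'.erase m, D, (Finset.erase_subset _ _).trans hS',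
    ⟨m', Finset.mem_erase.2 ⟨?_, hm'⟩, ?_⟩, fun z hz => ?_, rfl⟩
  · rw [← hk]
    exact Finset.card_erase_lt_of_mem hm
  · rintro rfl
    exact hne (by ring)
  · intro h
    exact hne (sub_eq_zero.1 h)
  · have h1 : ∑ u ∈ S', ev z (D u) * G u z = 0 := by
      have h2 := hr z hz
      have h3 := hr (z + 1) (hU z hz)
      have h4 : ∑ u ∈ S', ev z (σ (q' u)) * (ev z (ρ u) * G u z) = 0 := by
        rw [← h3]
        refine Finset.sum_congr rfl fun u _ => ?_
        rw [hG u z hz, hev z hz]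
      have h5 : ∀ u, ev z (D u) * G u z = ev z (σ (q' m) * ρ m) * (ev z (q' u) * G u z) -
          ev z (q' m) * (ev z (σ (q' u)) * (ev z (ρ u) * G u z)) := by
        intro u
        simp only [hD, map_sub, map_mul]
        ring
      simp only [h5, Finset.sum_sub_distrib, ← Finset.mul_sum]
      rw [h2, h4]
      ring
    rw [← Finset.add_sum_erase _ _ hm, hD0, map_zero, zero_mul, zero_add] at h1
    exact h1

end Pool.Agent.X191.RO
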