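import Mathlib
import Pool.Agent.X191.RO.Min
import Pool.Agent.X191.RO.Exp
import Pool.Agent.X191.LR.Ind

/-!
# Products of Gamma functions of linear forms with slopes of both signs
-/

set_option autoImplicit false

open Polynomial

namespace Pool.Agent.X191.RO

open Pool.Agent.X191.LR (cl RG cl_RG RG_ne RG_eval cl_mul cl_C cl_pow cl_prod cl_shift lc_shift Gamma_shift)

variable {p s : ℕ}

/-- the product -/
noncomputable def ff (α : Fin p → ℤ) (γ : Fin p → ℂ) (n : Fin p → ℤ) (z : ℂ) : ℂ :=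
  ∏ j, Complex.Gamma (α j * z + γ j) ^ n j

/-- the domain where no argument is an integer -/
def UU (α : Fin p → ℤ) (γ : Fin p → ℂ) : Set ℂ := {z | ∀ j, ∀ k : ℤ, (α j : ℂ) * z + γ j ≠ k}

/-- the positive slopes -/
def au (α : Fin p → ℤ) (j : Fin p) : ℕ := (α j).natAbs

/-- the shifts -/
noncomputable def gu (α : Fin p → ℤ) (γ : Fin p → ℂ) (j : Fin p) : ℂ := if 0 < α j then γ j else 1 - γ j

/-- the Gamma functions with positive slopes -/
noncomputable def uu (α : Fin p → ℤ) (γ : Fin p → ℂ) (j : Fin p) (z : ℂ) : ℂ :=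
  Complex.Gamma (au α j * z + gu α γ j)

/-- the exponents of the Gamma functions with positive slopes -/
def sg (α n : Fin p → ℤ) (j : Fin p) : ℤ := if 0 < α j then n j else - n j

/-- the polynomials in `exp (2 π i z)` of the reflection formula -/
noncomputable def DD (α : Fin p → ℤ) (γ : Fin p → ℂ) (j : Fin p) : ℂ[X] :=
  if 0 < α j then 1 else C (EE (1 - γ j)) * X ^ au α j - 1

/-- the constants of the reflection formula -/
noncomputable def KK (α : Fin p → ℤ) (γ : Fin p → ℂ) (j : Fin p) : ℂ :=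
  if 0 < α j then 1 else 2 * Real.pi * Complex.I * Complex.exp (Real.pi * Complex.I * (1 - γ j))

/-- the exponents of the reflection formula -/
noncomputable def cc (α n : Fin p → ℤ) (j : Fin p) : ℂ :=
  if 0 < α j then 0 else Real.pi * Complex.I * au α j * n j

theorem au_ge {α : Fin p → ℤ} (hα : ∀ j, α j ≠ 0) (j : Fin p) : 1 ≤ au α j := by
  have := hα j
  unfold au
  omega

/-- the arguments -/
theorem arg_pos {α : Fin p → ℤ} (γ : Fin p → ℂ) {j : Fin p} (h : 0 < α j) (z : ℂ) :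
    (au α j : ℂ) * z + gu α γ j = α j * z + γ j := by
  have h1 : ((au α j : ℕ) : ℂ) = α j := by
    unfold au
    have h2 : ((α j).natAbs : ℤ) = α j := Int.natAbs_of_nonneg h.le
    rw [← Int.cast_natCast, h2]
  unfold gu
  rw [if_pos h, h1]

theorem arg_neg {α : Fin p → ℤ} (hα : ∀ j, α j ≠ 0) (γ : Fin p → ℂ) {j : Fin p} (h : ¬ 0 < α j) (z : ℂ) :
    (au α j : ℂ) * z + gu α γ j = 1 - (α j * z + γ j) := by
  have h1 : ((au α j : ℕ) : ℂ) = -(α j : ℂ) := by
    unfold au
    have h2 := hα j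
    have h3 : ((α j).natAbs : ℤ) = -(α j) := by omega
    rw [← Int.cast_natCast, h3, Int.cast_neg]
  unfold gu
  rw [if_neg h, h1]
  ring

theorem int_iff {α : Fin p → ℤ} (hα : ∀ j, α j ≠ 0) (γ : Fin p → ℂ) (j : Fin p) (z : ℂ) :
    (∃ k : ℤ, (au α j : ℂ) * z + gu α γ j = k) ↔ ∃ k : ℤ, (α j : ℂ) * z + γ j = k := by
  by_cases h : 0 < α j
  · rw [arg_pos γ h]
  · rw [arg_neg hα γ h]
    constructor
    · rintro ⟨k, hk⟩
      refine ⟨1 - k, ?_⟩
      push_cast
      linear_combination -hk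
    · rintro ⟨k, hk⟩
      refine ⟨1 - k, ?_⟩
      push_cast
      linear_combination -hk

theorem UU_shift (α : Fin p → ℤ) (γ : Fin p → ℂ) {z : ℂ} (hz : z ∈ UU α γ) : z + 1 ∈ UU α γ := by
  intro j k h
  refine hz j (k - α j) ?_
  push_cast
  linear_combination h

theorem UU_count {α : Fin p → ℤ} (hα : ∀ j, α j ≠ 0) (γ : Fin p → ℂ) : ((UU α γ)ᶜ).Countable := by
  have h2 : (UU α γ)ᶜ ⊆ Set.range (fun q : Fin p × ℤ => (((q.2 : ℂ) - γ q.1) / α q.1 : ℂ)) := by
    intro z hz
    simp only [UU, Set.mem_compl_iff, Set.mem_ofPred_eq, not_forall, not_not] at hz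
    obtain ⟨j, k, h⟩ := hz
    refine ⟨(j, k), ?_⟩
    have h0 : (α j : ℂ) ≠ 0 := by exact_mod_cast hα j
    simp only
    rw [div_eq_iff h0]
    linear_combination -h
  exact (Set.countable_range _).mono h2

/-- the arguments are not integers -/
theorem no_int {α : Fin p → ℤ} (hα : ∀ j, α j ≠ 0) (γ : Fin p → ℂ) {z : ℂ} (hz : z ∈ UU α γ) (j : Fin p) (k : ℤ) :
    (au α j : ℂ) * z + gu α γ j ≠ k := by
  intro h
  obtain ⟨l, hl⟩ := (int_iff hα γ j z).1 ⟨k, h⟩
  exact hz j l hl

theorem no_pole {α : Fin p → ℤ} (hα : ∀ j, α j ≠ 0) (γ : Fin p → ℂ) {z : ℂ} (hz : z ∈ UU α γ) (j : Fin p) (k : ℕ) :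
    (au α j : ℂ) * z + gu α γ j ≠ -k := by
  intro h
  exact no_int hα γ hz j (-k) (by rw [h]; push_cast; ring)

theorem uu_ne {α : Fin p → ℤ} (hα : ∀ j, α j ≠ 0) (γ : Fin p → ℂ) {z : ℂ} (hz : z ∈ UU α γ) (j : Fin p) :
    uu α γ j z ≠ 0 := Complex.Gamma_ne_zero (no_pole hα γ hz j)

theorem uu_shift {α : Fin p → ℤ} (hα : ∀ j, α j ≠ 0) (γ : Fin p → ℂ) {z : ℂ} (hz : z ∈ UU α γ) (j : Fin p) :
    uu α γ j (z + 1) = (RG (au α j) (gu α γ j)).eval z * uu α γ j z := by
  unfold uu
  rw [RG_eval, ← Gamma_shift _ (no_pole hα γ hz j)]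
  congr 1
  ring

/-- the reflection formula -/
theorem refl_formula {α : Fin p → ℤ} (hα : ∀ j, α j ≠ 0) (γ : Fin p → ℂ) {z : ℂ} (hz : z ∈ UU α γ) {j : Fin p}
    (h : ¬ 0 < α j) : Complex.Gamma (α j * z + γ j) * ((DD α γ j).eval (EE z) * uu α γ j z) =
      KK α γ j * Complex.exp (Real.pi * Complex.I * au α j * z) ∧ (DD α γ j).eval (EE z) ≠ 0 := by
  set w : ℂ := au α j * z + gu α γ j with hw
  have hw1 : (α j : ℂ) * z + γ j = 1 - w := by
    rw [hw, arg_neg hα γ h]
    ring
  have hni := no_int hα γ hz j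
  rw [← hw] at hni
  have hgu : gu α γ j = 1 - γ j := by unfold gu; rw [if_neg h]
  have hD : (DD α γ j).eval (EE z) = Complex.exp (2 * Real.pi * Complex.I * w) - 1 := by
    unfold DD
    rw [if_neg h]
    simp only [eval_sub, eval_mul, eval_C, eval_pow, eval_X, eval_one]
    congr 1
    unfold EE
    rw [← Complex.exp_nat_mul, ← Complex.exp_add]
    congr 1
    rw [hw, hgu]
    ring
  have hexp : Complex.exp (2 * Real.pi * Complex.I * w) ≠ 1 := by
    intro h1
    rw [Complex.exp_eq_one_iff] at h1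
    obtain ⟨k, hk⟩ := h1
    have h2pi : (2 * Real.pi * Complex.I : ℂ) ≠ 0 := Complex.two_pi_I_ne_zero
    exact hni k (mul_left_cancel₀ h2pi (by rw [hk]; ring))
  have hD0 : (DD α γ j).eval (EE z) ≠ 0 := by
    rw [hD]
    exact sub_ne_zero.2 hexp
  refine ⟨?_, hD0⟩
  have h1 := Complex.Gamma_mul_Gamma_one_sub w
  have hs0 : Complex.sin (Real.pi * w) ≠ 0 := by
    intro h0
    rw [Complex.sin_eq_zero_iff] at h0
    obtain ⟨k, hk⟩ := h0
    have hpi : (Real.pi : ℂ) ≠ 0 := by exact_mod_cast Real.pi_ne_zero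
    exact hni k (mul_left_cancel₀ hpi (by rw [hk]; ring))
  rw [eq_div_iff hs0] at h1
  have hsin : Complex.sin (Real.pi * w) * (2 * Complex.I) * Complex.exp (Real.pi * Complex.I * w) =
      Complex.exp (2 * Real.pi * Complex.I * w) - 1 := by
    rw [Complex.sin]
    have e1 : Complex.exp (-(Real.pi * w) * Complex.I) * Complex.exp (Real.pi * Complex.I * w) = 1 := by
      rw [← Complex.exp_add, ← Complex.exp_zero]
      congr 1
      ring
    have e2 : Complex.exp (Real.pi * w * Complex.I) * Complex.exp (Real.pi * Complex.I * w) =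
        Complex.exp (2 * Real.pi * Complex.I * w) := by
      rw [← Complex.exp_add]
      congr 1
      ring
    have hI : Complex.I * Complex.I = -1 := Complex.I_mul_I
    linear_combination (-(Complex.I * Complex.I)) * e2 + (Complex.I * Complex.I) * e1 +
      (1 - Complex.exp (2 * Real.pi * Complex.I * w)) * hI
  have hK : KK α γ j = 2 * Real.pi * Complex.I * Complex.exp (Real.pi * Complex.I * (1 - γ j)) := by
    unfold KK
    rw [if_neg h]
  have hu : uu α γ j z = Complex.Gamma w := rfl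
  have hx : Complex.exp (Real.pi * Complex.I * w) =
      Complex.exp (Real.pi * Complex.I * (1 - γ j)) * Complex.exp (Real.pi * Complex.I * au α j * z) := by
    rw [← Complex.exp_add]
    congr 1
    rw [hw, hgu]
    ring
  rw [hw1, hu, hD, hK, ← hsin]
  linear_combination (2 * Complex.I * Complex.exp (Real.pi * Complex.I * w)) * h1 +
    (2 * Real.pi * Complex.I) * hx

end Pool.Agent.X191.RO
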