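import Mathlib
import Pool.Agent.X191.RO.Prod

/-!
# A product of Gamma functions, `b_k ^ z` and `exp (2 π i z)` are algebraically independent
-/

set_option autoImplicit false

open Polynomial

namespace Pool.Agent.X191.RO

open Pool.Agent.X191.LR (cl RG cl_RG RG_ne RG_eval cl_mul cl_C cl_pow cl_prod cl_shift lc_shift MulInd)

variable {p s : ℕ}

/-- one factor of the product -/
theorem factor {α : Fin p → ℤ} (hα : ∀ j, α j ≠ 0) (γ : Fin p → ℂ) (n : Fin p → ℤ) {z : ℂ} (hz : z ∈ UU α γ)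
    (j : Fin p) (e N : ℕ) (h1 : (e : ℤ) * n j ≤ N) (h2 : -((e : ℤ) * n j) ≤ N) :
    (Complex.Gamma (α j * z + γ j) ^ n j) ^ e * ((DD α γ j).eval (EE z) ^ N * uu α γ j z ^ N) =
      (KK α γ j ^ n j) ^ e * Complex.exp (e * (cc α n j * z)) *
        ((DD α γ j).eval (EE z) ^ ((N : ℤ) - e * n j).toNat * uu α γ j z ^ ((N : ℤ) + e * sg α n j).toNat) := by
  by_cases h : 0 < α j
  · have hD : DD α γ j = 1 := by unfold DD; rw [if_pos h]
    have hK : KK α γ j = 1 := by unfold KK; rw [if_pos h]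
    have hc : cc α n j = 0 := by unfold cc; rw [if_pos h]
    have hs : sg α n j = n j := by unfold sg; rw [if_pos h]
    have hu : Complex.Gamma (α j * z + γ j) = uu α γ j z := by
      unfold uu
      rw [arg_pos γ h]
    have hu0 := uu_ne hα γ hz j
    rw [hD, hK, hc, hs, hu, eval_one, one_pow, one_pow, one_zpow, one_pow, zero_mul, mul_zero, Complex.exp_zero,
      one_mul, one_mul, one_mul, one_mul, ← zpow_natCast (uu α γ j z) (((N : ℤ) + e * n j).toNat),
      Int.toNat_of_nonneg (by omega), ← zpow_natCast (uu α γ j z) N, ← zpow_natCast _ e, ← zpow_mul,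
      ← zpow_add₀ hu0]
    congr 1
    ring
  · obtain ⟨h3, hD0⟩ := refl_formula hα γ hz h
    have hu0 := uu_ne hα γ hz j
    have hc : cc α n j = Real.pi * Complex.I * au α j * n j := by unfold cc; rw [if_neg h]
    have hs : sg α n j = - n j := by unfold sg; rw [if_neg h]
    have hK0 : KK α γ j ≠ 0 := by
      unfold KK
      rw [if_neg h]
      exact mul_ne_zero Complex.two_pi_I_ne_zero (Complex.exp_ne_zero _)
    have hG : Complex.Gamma (α j * z + γ j) = KK α γ j * Complex.exp (Real.pi * Complex.I * au α j * z) *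
        ((DD α γ j).eval (EE z) * uu α γ j z)⁻¹ := by
      rw [eq_mul_inv_iff_mul_eq₀ (mul_ne_zero hD0 hu0)]
      exact h3
    have hX0 := Complex.exp_ne_zero (Real.pi * Complex.I * au α j * z)
    have e1 : Complex.exp (e * (cc α n j * z)) =
        (Complex.exp (Real.pi * Complex.I * au α j * z) ^ n j) ^ e := by
      rw [← Complex.exp_int_mul, ← Complex.exp_nat_mul]
      congr 1
      rw [hc]
      ring
    rw [e1, hs, hG]
    set D := (DD α γ j).eval (EE z)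
    set u := uu α γ j z
    set K := KK α γ j
    set x := Complex.exp (Real.pi * Complex.I * au α j * z)
    have e2 : D ^ ((N : ℤ) - e * n j).toNat = D ^ ((N : ℤ) - e * n j) := by
      rw [← zpow_natCast, Int.toNat_of_nonneg (by omega)]
    have e3 : u ^ ((N : ℤ) + e * -(n j)).toNat = u ^ ((N : ℤ) - e * n j) := by
      rw [← zpow_natCast, Int.toNat_of_nonneg (by rw [mul_neg]; omega)]
      congr 1
      ring
    rw [e2, e3, ← zpow_natCast D N, ← zpow_natCast u N, ← zpow_natCast (_ ^ n j) e, ← zpow_natCast (K ^ n j) e,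
      ← zpow_natCast (x ^ n j) e, ← zpow_mul, ← zpow_mul, ← zpow_mul, mul_zpow, mul_zpow, mul_inv, mul_zpow,
      inv_zpow', inv_zpow', zpow_sub₀ hD0, zpow_sub₀ hu0, zpow_neg, zpow_neg]
    have e4 : n j * (e : ℤ) = e * n j := mul_comm _ _
    rw [e4]
    field_simp

/-- the exponential factor -/
noncomputable def ct (α n : Fin p → ℤ) : ℂ := ∑ j, cc α n j

/-- the constant -/
noncomputable def kt (α : Fin p → ℤ) (γ : Fin p → ℂ) (n : Fin p → ℤ) : ℂ := ∏ j, KK α γ j ^ n j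

/-- the solutions of the difference equations -/
noncomputable def GG (α : Fin p → ℤ) (γ : Fin p → ℂ) (n : Fin p → ℤ) (b : Fin s → ℝ) (N : ℕ)
    (m : Option (Fin s) →₀ ℕ) (z : ℂ) : ℂ :=
  Complex.exp (m none * (ct α n * z)) * (∏ j, uu α γ j z ^ ((N : ℤ) + m none * sg α n j).toNat) *
    ∏ k, ((b k : ℂ) ^ z) ^ m (some k)

/-- the multipliers -/
noncomputable def rr (α : Fin p → ℤ) (γ : Fin p → ℂ) (n : Fin p → ℤ) (b : Fin s → ℝ) (N : ℕ)
    (m : Option (Fin s) →₀ ℕ) : ℂ[X] :=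
  C (Complex.exp (m none * ct α n)) * (∏ j, RG (au α j) (gu α γ j) ^ ((N : ℤ) + m none * sg α n j).toNat) *
    C (∏ k, (b k : ℂ) ^ m (some k))

theorem rr_ne {α : Fin p → ℤ} (hα : ∀ j, α j ≠ 0) (γ : Fin p → ℂ) (n : Fin p → ℤ) (b : Fin s → ℝ)
    (hb : ∀ k, 0 < b k) (N : ℕ) (m : Option (Fin s) →₀ ℕ) : rr α γ n b N m ≠ 0 := by
  unfold rr
  refine mul_ne_zero (mul_ne_zero ?_ ?_) ?_
  · rw [Ne, C_eq_zero]
    exact Complex.exp_ne_zero _
  · exact Finset.prod_ne_zero_iff.2 fun j _ => pow_ne_zero _ (RG_ne (au_ge hα j) _)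
  · rw [Ne, C_eq_zero]
    exact Finset.prod_ne_zero_iff.2 fun k _ => pow_ne_zero _ (by exact_mod_cast (hb k).ne')

theorem GG_ne {α : Fin p → ℤ} (hα : ∀ j, α j ≠ 0) (γ : Fin p → ℂ) (n : Fin p → ℤ) (b : Fin s → ℝ)
    (hb : ∀ k, 0 < b k) (N : ℕ) (m : Option (Fin s) →₀ ℕ) {z : ℂ} (hz : z ∈ UU α γ) : GG α γ n b N m z ≠ 0 := by
  unfold GG
  refine mul_ne_zero (mul_ne_zero (Complex.exp_ne_zero _) ?_) ?_
  · exact Finset.prod_ne_zero_iff.2 fun j _ => pow_ne_zero _ (uu_ne hα γ hz j)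
  · refine Finset.prod_ne_zero_iff.2 fun k _ => pow_ne_zero _ ?_
    have h0 : (b k : ℂ) ≠ 0 := by exact_mod_cast (hb k).ne'
    intro h
    exact h0 ((Complex.cpow_eq_zero_iff _ _).1 h).1

theorem GG_shift {α : Fin p → ℤ} (hα : ∀ j, α j ≠ 0) (γ : Fin p → ℂ) (n : Fin p → ℤ) (b : Fin s → ℝ)
    (hb : ∀ k, 0 < b k) (N : ℕ) (m : Option (Fin s) →₀ ℕ) {z : ℂ} (hz : z ∈ UU α γ) :
    GG α γ n b N m (z + 1) = ev z (C (rr α γ n b N m)) * GG α γ n b N m z := by
  have e0 : ev z (C (rr α γ n b N m)) = (rr α γ n b N m).eval z := by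
    unfold ev
    rw [coe_eval₂RingHom, eval₂_C, coe_evalRingHom]
  rw [e0]
  unfold GG rr
  rw [eval_mul, eval_mul, eval_C, eval_C, eval_prod]
  simp only [eval_pow]
  have e1 : Complex.exp (m none * (ct α n * (z + 1))) =
      Complex.exp (m none * ct α n) * Complex.exp (m none * (ct α n * z)) := by
    rw [← Complex.exp_add]
    congr 1
    ring
  have e2 : ∏ j, uu α γ j (z + 1) ^ ((N : ℤ) + m none * sg α n j).toNat =
      (∏ j, eval z (RG (au α j) (gu α γ j)) ^ ((N : ℤ) + m none * sg α n j).toNat) *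
        ∏ j, uu α γ j z ^ ((N : ℤ) + m none * sg α n j).toNat := by
    rw [← Finset.prod_mul_distrib]
    refine Finset.prod_congr rfl fun j _ => ?_
    rw [uu_shift hα γ hz, mul_pow]
  have e3 : ∏ k, ((b k : ℂ) ^ (z + 1)) ^ m (some k) =
      (∏ k, (b k : ℂ) ^ m (some k)) * ∏ k, ((b k : ℂ) ^ z) ^ m (some k) := by
    rw [← Finset.prod_mul_distrib]
    refine Finset.prod_congr rfl fun k _ => ?_
    have h0 : (b k : ℂ) ≠ 0 := by exact_mod_cast (hb k).ne'
    rw [Complex.cpow_add _ _ h0, Complex.cpow_one, mul_pow]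
    ring
  rw [e1, e2, e3]
  ring

/-- the factor of the coefficients -/
noncomputable def ww (α : Fin p → ℤ) (γ : Fin p → ℂ) (n : Fin p → ℤ) (N e : ℕ) : ℂ[X][X] :=
  C (C (kt α γ n ^ e)) * (∏ j, DD α γ j ^ ((N : ℤ) - e * n j).toNat).map C

theorem DD_ne {α : Fin p → ℤ} (hα : ∀ j, α j ≠ 0) (γ : Fin p → ℂ) (j : Fin p) : DD α γ j ≠ 0 := by
  unfold DD
  split_ifs with h
  · exact one_ne_zero
  · intro h0
    have h1 := congrArg (fun q => q.coeff (au α j)) h0
    have h2 : au α j ≠ 0 := by have := au_ge hα j; omega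
    simp only [coeff_sub, coeff_C_mul, coeff_X_pow, if_true, mul_one, coeff_one, coeff_zero] at h1
    rw [if_neg h2, sub_zero] at h1
    exact EE_ne _ h1

theorem KK_ne (α : Fin p → ℤ) (γ : Fin p → ℂ) (j : Fin p) : KK α γ j ≠ 0 := by
  unfold KK
  split_ifs
  · exact one_ne_zero
  · exact mul_ne_zero Complex.two_pi_I_ne_zero (Complex.exp_ne_zero _)

theorem ww_ne {α : Fin p → ℤ} (hα : ∀ j, α j ≠ 0) (γ : Fin p → ℂ) (n : Fin p → ℤ) (N e : ℕ) :
    ww α γ n N e ≠ 0 := by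
  unfold ww
  refine mul_ne_zero ?_ ?_
  · rw [Ne, C_eq_zero, C_eq_zero]
    exact pow_ne_zero _ (Finset.prod_ne_zero_iff.2 fun j _ => zpow_ne_zero _ (KK_ne α γ j))
  · rw [Ne, Polynomial.map_eq_zero_iff C_injective]
    exact Finset.prod_ne_zero_iff.2 fun j _ => pow_ne_zero _ (DD_ne hα γ j)

theorem ev_ww (α : Fin p → ℤ) (γ : Fin p → ℂ) (n : Fin p → ℤ) (N e : ℕ) (z : ℂ) :
    ev z (ww α γ n N e) = kt α γ n ^ e * ∏ j, (DD α γ j).eval (EE z) ^ ((N : ℤ) - e * n j).toNat := by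
  unfold ww ev
  rw [coe_eval₂RingHom, eval₂_mul, eval₂_C, coe_evalRingHom, eval_C, eval₂_map]
  congr 1
  have : (evalRingHom z).comp (C : ℂ →+* ℂ[X]) = RingHom.id ℂ := by
    ext x
    simp
  rw [this, eval₂_id, eval_prod]
  exact Finset.prod_congr rfl fun j _ => by rw [eval_pow]

/-- the product -/
theorem product {α : Fin p → ℤ} (hα : ∀ j, α j ≠ 0) (γ : Fin p → ℂ) (n : Fin p → ℤ) {z : ℂ} (hz : z ∈ UU α γ)
    (e N : ℕ) (h1 : ∀ j, (e : ℤ) * n j ≤ N) (h2 : ∀ j, -((e : ℤ) * n j) ≤ N) :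
    ff α γ n z ^ e * (∏ j, ((DD α γ j).eval (EE z) ^ N * uu α γ j z ^ N)) =
      ev z (ww α γ n N e) * (Complex.exp (e * (ct α n * z)) *
        ∏ j, uu α γ j z ^ ((N : ℤ) + e * sg α n j).toNat) := by
  rw [ev_ww]
  unfold ff kt ct
  rw [← Finset.prod_pow, ← Finset.prod_mul_distrib]
  rw [Finset.prod_congr rfl fun j _ => factor hα γ n hz j e N (h1 j) (h2 j)]
  rw [Finset.prod_mul_distrib, Finset.prod_mul_distrib, Finset.prod_mul_distrib, Finset.prod_pow, Finset.sum_mul,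
    Finset.mul_sum, Complex.exp_sum]
  ring

end Pool.Agent.X191.RO
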