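import Mathlib
import Pool.Agent.X191.RO.Ind

/-!
# No relation
-/

set_option autoImplicit false

open Polynomial

namespace Pool.Agent.X191.RO

open Pool.Agent.X191.LR (cl RG cl_RG RG_ne RG_eval cl_mul cl_C cl_pow cl_prod cl_shift lc_shift MulInd)

variable {p s : ℕ}

open Classical in
/-- the number of the integers among the arguments at `x`, with signs and multiplicities -/
noncomputable def cnt (α : Fin p → ℤ) (γ : Fin p → ℂ) (n : Fin p → ℤ) (x : ℂ) : ℤ :=
  ∑ j, sg α n j * (if ∃ k : ℤ, (α j : ℂ) * x + γ j = k then 1 else 0)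

open Classical in
theorem cl_rr {α : Fin p → ℤ} (hα : ∀ j, α j ≠ 0) (γ : Fin p → ℂ) (n : Fin p → ℤ) (b : Fin s → ℝ)
    (hb : ∀ k, 0 < b k) (N : ℕ) (m : Option (Fin s) →₀ ℕ) (h1 : ∀ j, -((m none : ℤ) * sg α n j) ≤ N) (x : ℂ) :
    (cl x (rr α γ n b N m) : ℤ) = (∑ j, (N : ℤ) * (if ∃ k : ℤ, (α j : ℂ) * x + γ j = k then 1 else 0)) +
      m none * cnt α γ n x := by
  unfold rr cnt
  have hP : (∏ j, RG (au α j) (gu α γ j) ^ ((N : ℤ) + m none * sg α n j).toNat) ≠ 0 :=
    Finset.prod_ne_zero_iff.2 fun j _ => pow_ne_zero _ (RG_ne (au_ge hα j) _)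
  have hC1 : (C (Complex.exp (m none * ct α n)) : ℂ[X]) ≠ 0 := by
    rw [Ne, C_eq_zero]
    exact Complex.exp_ne_zero _
  have hC2 : (C (∏ k, (b k : ℂ) ^ m (some k)) : ℂ[X]) ≠ 0 := by
    rw [Ne, C_eq_zero]
    exact Finset.prod_ne_zero_iff.2 fun k _ => pow_ne_zero _ (by exact_mod_cast (hb k).ne')
  rw [cl_mul x (mul_ne_zero hC1 hP) hC2, cl_mul x hC1 hP, cl_C, cl_C, zero_add, add_zero,
    cl_prod x _ _ fun j _ => pow_ne_zero _ (RG_ne (au_ge hα j) _)]
  simp only [cl_pow x (RG_ne (au_ge hα _) _), cl_RG (au_ge hα _), int_iff hα γ]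
  push_cast
  rw [Finset.mul_sum, ← Finset.sum_add_distrib]
  refine Finset.sum_congr rfl fun j _ => ?_
  rw [Int.toNat_of_nonneg (by have := h1 j; omega)]
  ring

/-- no relation -/
theorem no_rel {α : Fin p → ℤ} (hα : ∀ j, α j ≠ 0) (γ : Fin p → ℂ) (n : Fin p → ℤ) (b : Fin s → ℝ)
    (hb : ∀ k, 0 < b k) {x₀ : ℂ} (hx : cnt α γ n x₀ ≠ 0) (hm : MulInd b)
    (Q : MvPolynomial (Option (Fin s)) ℂ[X][X])
    (hrel : ∀ z ∈ UU α γ, ∑ m ∈ Q.support, ev z (Q.coeff m) *
      (ff α γ n z ^ m none * ∏ k, ((b k : ℂ) ^ z) ^ m (some k)) = 0) : Q = 0 := by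
  classical
  by_contra hQ
  -- the bound for the exponents
  set d : ℕ := Q.support.sup fun m => m none with hd
  set N : ℕ := d * ∑ j, (n j).natAbs with hN
  have hb1 : ∀ m ∈ Q.support, ∀ j, ((m none : ℤ) * (n j).natAbs) ≤ N := by
    intro m hm1 j
    have h1 : m none ≤ d := Finset.le_sup (f := fun m : Option (Fin s) →₀ ℕ => m none) hm1
    have h2 : (n j).natAbs ≤ ∑ j, (n j).natAbs :=
      Finset.single_le_sum (f := fun j => (n j).natAbs) (fun _ _ => Nat.zero_le _) (Finset.mem_univ j)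
    have h3 : m none * (n j).natAbs ≤ N := by
      rw [hN]
      exact Nat.mul_le_mul h1 h2
    exact_mod_cast h3
  have hn1 : ∀ m ∈ Q.support, ∀ j, (m none : ℤ) * n j ≤ N := by
    intro m hm1 j
    refine le_trans ?_ (hb1 m hm1 j)
    exact mul_le_mul_of_nonneg_left (by omega) (Int.natCast_nonneg _)
  have hn2 : ∀ m ∈ Q.support, ∀ j, -((m none : ℤ) * n j) ≤ N := by
    intro m hm1 j
    refine le_trans ?_ (hb1 m hm1 j)
    rw [← mul_neg]
    exact mul_le_mul_of_nonneg_left (by omega) (Int.natCast_nonneg _)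
  have hn3 : ∀ m ∈ Q.support, ∀ j, -((m none : ℤ) * sg α n j) ≤ N := by
    intro m hm1 j
    unfold sg
    split_ifs
    · exact hn2 m hm1 j
    · have := hn1 m hm1 j
      rw [mul_neg]
      omega
  -- the relation between the solutions
  obtain ⟨S', q', hS', hne, hq0, hr, hcross⟩ := minimal sh ev (GG α γ n b N) (fun m => C (rr α γ n b N m)) (UU α γ)
    (fun z hz => UU_shift α γ hz) (fun z _ r => ev_shift z r)
    (fun m z hz => GG_shift hα γ n b hb N m hz) Q.support
    (fun m => Q.coeff m * ww α γ n N (m none)) (by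
      obtain ⟨m, hm1⟩ := MvPolynomial.support_nonempty.2 hQ
      exact ⟨m, hm1, mul_ne_zero (MvPolynomial.mem_support_iff.1 hm1) (ww_ne hα γ n N _)⟩) (by
      intro z hz
      have h1 := congrArg (fun w => w * ∏ j, ((DD α γ j).eval (EE z) ^ N * uu α γ j z ^ N)) (hrel z hz)
      simp only [zero_mul] at h1
      rw [← h1, Finset.sum_mul]
      refine Finset.sum_congr rfl fun m hm1 => ?_
      have h2 := product hα γ n hz (m none) N (hn1 m hm1) (hn2 m hm1)
      rw [map_mul]
      unfold GG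
      linear_combination (-(ev z (Q.coeff m) * ∏ k, ((b k : ℂ) ^ z) ^ m (some k))) * h2)
  -- the terms are equivalent
  have hall : ∀ m ∈ S', ∀ m' ∈ S', m = m' := by
    intro m hm1 m' hm2
    have h1 := congrArg leadingCoeff (hcross m hm1 m' hm2)
    rw [leadingCoeff_mul, leadingCoeff_mul, leadingCoeff_mul, leadingCoeff_mul, leadingCoeff_sh, leadingCoeff_sh,
      leadingCoeff_C, leadingCoeff_C] at h1
    set a := (q' m).leadingCoeff
    set a' := (q' m').leadingCoeff
    have ha : a ≠ 0 := leadingCoeff_ne_zero.2 (hq0 m hm1)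
    have ha' : a' ≠ 0 := leadingCoeff_ne_zero.2 (hq0 m' hm2)
    have e : (X + 1 : ℂ[X]) = X + C 1 := by simp
    have hsa : a.comp (X + 1) ≠ 0 := by
      rw [e]
      exact comp_X_add_C_ne_zero_iff.2 ha
    have hsa' : a'.comp (X + 1) ≠ 0 := by
      rw [e]
      exact comp_X_add_C_ne_zero_iff.2 ha'
    have hR := rr_ne hα γ n b hb N m
    have hR' := rr_ne hα γ n b hb N m'
    have hcl : cl x₀ (rr α γ n b N m) = cl x₀ (rr α γ n b N m') := by
      have h2 := congrArg (cl x₀) h1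
      rw [cl_mul x₀ (mul_ne_zero hsa hR) ha', cl_mul x₀ hsa hR, cl_mul x₀ ha (mul_ne_zero hsa' hR'),
        cl_mul x₀ hsa' hR', cl_shift, cl_shift] at h2
      omega
    have hnone : m none = m' none := by
      have h2 : (cl x₀ (rr α γ n b N m) : ℤ) = cl x₀ (rr α γ n b N m') := by exact_mod_cast hcl
      rw [cl_rr hα γ n b hb N m (hn3 m (hS' hm1)), cl_rr hα γ n b hb N m' (hn3 m' (hS' hm2))] at h2
      have h3 : ((m none : ℤ)) * cnt α γ n x₀ = m' none * cnt α γ n x₀ := by linarith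
      exact_mod_cast mul_right_cancel₀ hx h3
    -- leading coefficients
    have h2 := congrArg leadingCoeff h1
    rw [leadingCoeff_mul, leadingCoeff_mul, leadingCoeff_mul, leadingCoeff_mul, lc_shift, lc_shift] at h2
    have hla : a.leadingCoeff ≠ 0 := leadingCoeff_ne_zero.2 ha
    have hla' : a'.leadingCoeff ≠ 0 := leadingCoeff_ne_zero.2 ha'
    have h3 : (rr α γ n b N m).leadingCoeff = (rr α γ n b N m').leadingCoeff := by
      have : a.leadingCoeff * a'.leadingCoeff * (rr α γ n b N m).leadingCoeff =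
          a.leadingCoeff * a'.leadingCoeff * (rr α γ n b N m').leadingCoeff := by
        linear_combination h2
      exact mul_left_cancel₀ (mul_ne_zero hla hla') this
    unfold rr at h3
    rw [leadingCoeff_mul, leadingCoeff_mul, leadingCoeff_mul, leadingCoeff_mul, leadingCoeff_C, leadingCoeff_C,
      leadingCoeff_C, leadingCoeff_C, hnone] at h3
    have h5 : (Complex.exp (m' none * ct α n) *
        (∏ j, RG (au α j) (gu α γ j) ^ ((N : ℤ) + m' none * sg α n j).toNat).leadingCoeff) ≠ 0 :=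
      mul_ne_zero (Complex.exp_ne_zero _) (leadingCoeff_ne_zero.2
        (Finset.prod_ne_zero_iff.2 fun j _ => pow_ne_zero _ (RG_ne (au_ge hα j) _)))
    have h6 := mul_left_cancel₀ h5 h3
    have h7 : (∏ k, b k ^ m (some k) : ℝ) = ∏ k, b k ^ m' (some k) := by
      exact_mod_cast h6
    have h8 := hm (fun k => (m (some k) : ℤ) - m' (some k)) (by
      have : ∀ k, b k ^ ((m (some k) : ℤ) - m' (some k)) = b k ^ m (some k) / b k ^ m' (some k) := by
        intro k
        rw [zpow_sub₀ (hb k).ne', zpow_natCast, zpow_natCast]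
      simp only [this, Finset.prod_div_distrib]
      rw [h7, div_self]
      exact Finset.prod_ne_zero_iff.2 fun k _ => pow_ne_zero _ (hb k).ne')
    ext y
    rcases y with _ | k
    · exact hnone
    · have h9 := congrFun h8 k
      simp only [Pi.zero_apply] at h9
      omega
  obtain ⟨m₀, hm₀⟩ := hne
  have hsing : S' = {m₀} := Finset.eq_singleton_iff_unique_mem.2 ⟨hm₀, fun m hm1 => hall m hm1 m₀ hm₀⟩
  refine hq0 m₀ hm₀ (ev_zero (UU_count hα γ) (fun z hz => UU_shift α γ hz) _ fun z hz => ?_)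
  have h1 := hr z hz
  rw [hsing, Finset.sum_singleton] at h1
  exact (mul_eq_zero.1 h1).resolve_right (GG_ne hα γ n b hb N m₀ hz)

end Pool.Agent.X191.RO
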