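import Mathlib
import Pool.Agent.X191.RO.Rel

/-!
# Local independence
-/

set_option autoImplicit false

open Polynomial

namespace Pool.Agent.X191.RO

open Pool.Agent.X191.LR (MulInd)

variable {p s : ℕ}

/-- the functions `∏ Γ(α_j z + γ_j) ^ n_j`, `b_k ^ z`, `exp (2 π i z)` -/
noncomputable def vv (α : Fin p → ℤ) (γ : Fin p → ℂ) (n : Fin p → ℤ) (b : Fin s → ℝ) :
    Unit ⊕ (Fin s ⊕ Unit) → ℂ → ℂ
  | Sum.inl _ => fun z => ff α γ n z
  | Sum.inr (Sum.inl k) => fun z => (b k : ℂ) ^ z
  | Sum.inr (Sum.inr _) => fun z => EE z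

/-- the domain without poles of the Gamma functions -/
def VV (α : Fin p → ℤ) (γ : Fin p → ℂ) : Set ℂ := {z | ∀ j, ∀ k : ℕ, (α j : ℂ) * z + γ j ≠ -k}

theorem UU_sub (α : Fin p → ℤ) (γ : Fin p → ℂ) : UU α γ ⊆ VV α γ := by
  intro z hz j k h
  exact hz j (-k) (by rw [h]; push_cast; ring)

theorem VV_conn {α : Fin p → ℤ} (hα : ∀ j, α j ≠ 0) (γ : Fin p → ℂ) : IsPreconnected (VV α γ) := by
  have h1 : ((VV α γ)ᶜ).Countable := (UU_count hα γ).mono (Set.compl_subset_compl.2 (UU_sub α γ))
  rw [← compl_compl (VV α γ)]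
  refine (Set.Countable.isConnected_compl_of_one_lt_rank ?_ h1).isPreconnected
  rw [Complex.rank_real_complex]
  exact_mod_cast (by norm_num : (1 : ℕ) < 2)

theorem vv_an (α : Fin p → ℤ) (γ : Fin p → ℂ) (n : Fin p → ℤ) (b : Fin s → ℝ) (hb : ∀ k, 0 < b k)
    (y : Unit ⊕ (Fin s ⊕ Unit)) {z : ℂ} (hz : z ∈ VV α γ) : AnalyticAt ℂ (vv α γ n b y) z := by
  rcases y with _ | k | _
  · change AnalyticAt ℂ (fun z => ∏ j, Complex.Gamma (α j * z + γ j) ^ n j) z
    refine Finset.analyticAt_fun_prod _ fun j _ => ?_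
    refine AnalyticAt.fun_zpow ?_ (Complex.Gamma_ne_zero (hz j))
    exact AnalyticAt.fun_comp (g := Complex.Gamma) (f := fun z : ℂ => (α j : ℂ) * z + γ j)
      (Pool.Agent.Y771.RP.Gamma_analyticAt (hz j)) ((analyticAt_const.mul analyticAt_id).add analyticAt_const)
  · have h0 : (b k : ℂ) ≠ 0 := by exact_mod_cast (hb k).ne'
    change AnalyticAt ℂ (fun z => (b k : ℂ) ^ z) z
    have e : (fun z : ℂ => (b k : ℂ) ^ z) = fun z => Complex.exp (Complex.log (b k) * z) := by
      funext z
      rw [Complex.cpow_def_of_ne_zero h0]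
    rw [e]
    exact (analyticAt_const.mul analyticAt_id).cexp'
  · exact (analyticAt_const.mul analyticAt_id).cexp'

/-- the reordering of the variables -/
def eqv (s : ℕ) : Option (Unit ⊕ (Fin s ⊕ Unit)) ≃ Option (Option (Option (Fin s))) where
  toFun
    | none => none
    | some (Sum.inl _) => some (some none)
    | some (Sum.inr (Sum.inl k)) => some (some (some k))
    | some (Sum.inr (Sum.inr _)) => some none
  invFun
    | none => none
    | some none => some (Sum.inr (Sum.inr ()))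
    | some (some none) => some (Sum.inl ())
    | some (some (some k)) => some (Sum.inr (Sum.inl k))
  left_inv := by
    rintro (_ | _ | k | _) <;> rfl
  right_inv := by
    rintro (_ | _ | _ | k) <;> rfl

/-- the polynomial with coefficients in `ℂ[z][E]` -/
noncomputable def conv (s : ℕ) : MvPolynomial (Option (Unit ⊕ (Fin s ⊕ Unit))) ℂ →+*
    MvPolynomial (Option (Fin s)) ℂ[X][X] :=
  ((MvPolynomial.optionEquivRight ℂ[X] (Option (Fin s))).toRingEquiv.toRingHom.comp
    (MvPolynomial.optionEquivRight ℂ (Option (Option (Fin s)))).toRingEquiv.toRingHom).comp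
    (MvPolynomial.renameEquiv ℂ (eqv s)).toRingEquiv.toRingHom

theorem conv_inj (s : ℕ) : Function.Injective (conv s) := by
  unfold conv
  intro x y h
  simp only [RingHom.comp_apply] at h
  exact (MvPolynomial.renameEquiv ℂ (eqv s)).injective
    ((MvPolynomial.optionEquivRight ℂ (Option (Option (Fin s)))).injective
      ((MvPolynomial.optionEquivRight ℂ[X] (Option (Fin s))).injective h))

/-- evaluation -/
noncomputable def EV2 (α : Fin p → ℤ) (γ : Fin p → ℂ) (n : Fin p → ℤ) (b : Fin s → ℝ) (z : ℂ) :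
    MvPolynomial (Option (Fin s)) ℂ[X][X] →+* ℂ :=
  MvPolynomial.eval₂Hom (ev z) (fun o => o.elim (ff α γ n z) fun k => (b k : ℂ) ^ z)

theorem EV2_conv (α : Fin p → ℤ) (γ : Fin p → ℂ) (n : Fin p → ℤ) (b : Fin s → ℝ) (z : ℂ)
    (P : MvPolynomial (Option (Unit ⊕ (Fin s ⊕ Unit))) ℂ) :
    EV2 α γ n b z (conv s P) = MvPolynomial.eval (fun o => o.elim z fun y => vv α γ n b y z) P := by
  have h : (EV2 α γ n b z).comp (conv s) = MvPolynomial.eval (fun o => o.elim z fun y => vv α γ n b y z) := by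
    apply MvPolynomial.ringHom_ext
    · intro a
      simp [EV2, conv, ev, MvPolynomial.optionEquivRight_C]
    · rintro (_ | _ | k | _)
      · simp [EV2, conv, ev, eqv, MvPolynomial.optionEquivRight_X_none, MvPolynomial.optionEquivRight_X_some,
          MvPolynomial.optionEquivRight_C]
      · simp [EV2, conv, ev, eqv, MvPolynomial.optionEquivRight_X_none, MvPolynomial.optionEquivRight_X_some,
          MvPolynomial.optionEquivRight_C, vv]
      · simp [EV2, conv, ev, eqv, MvPolynomial.optionEquivRight_X_none, MvPolynomial.optionEquivRight_X_some,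
          MvPolynomial.optionEquivRight_C, vv]
      · simp [EV2, conv, ev, eqv, MvPolynomial.optionEquivRight_X_none, MvPolynomial.optionEquivRight_X_some,
          MvPolynomial.optionEquivRight_C, vv]
  exact RingHom.congr_fun h P

theorem locInd {α : Fin p → ℤ} (hα : ∀ j, α j ≠ 0) (γ : Fin p → ℂ) (n : Fin p → ℤ) (b : Fin s → ℝ)
    (hb : ∀ k, 0 < b k) {x₀ : ℂ} (hx : cnt α γ n x₀ ≠ 0) (hm : MulInd b) :
    ∀ t ∈ VV α γ, Pool.Agent.Y124.LocInd (vv α γ n b) t := by
  refine Pool.Agent.Y771.RP.locInd_of (vv α γ n b) (VV α γ) (VV_conn hα γ) (fun y t ht => vv_an α γ n b hb y ht)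
    fun P hP => ?_
  have h1 := no_rel hα γ n b hb hx hm (conv s P) fun z hz => by
    have h2 := EV2_conv α γ n b z P
    rw [hP z (UU_sub α γ hz)] at h2
    unfold EV2 at h2
    rw [MvPolynomial.coe_eval₂Hom, MvPolynomial.eval₂_eq'] at h2
    rw [← h2]
    refine Finset.sum_congr rfl fun m _ => ?_
    rw [Fintype.prod_option]
    rfl
  exact conv_inj s (h1.trans (map_zero _).symm)

end Pool.Agent.X191.RO
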