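import Mathlib
import Pool.Agent.X191.RO.Loc

/-!
# Algebraic multiples
-/

set_option autoImplicit false

open NumberField

namespace Pool.Agent.X191.RO

open Pool.Agent.X191.LR (MulInd)

variable {p : ℕ}

/-- `y` is a root of a nonzero integer polynomial of degree at most `m` with coefficients of absolute value at
most `H` -/
def AlgLe (m : ℕ) (H : ℝ) (y : ℂ) : Prop :=
  ∃ Q : Polynomial ℤ, Q ≠ 0 ∧ Q.natDegree ≤ m ∧ (∀ i, |(Q.coeff i : ℝ)| ≤ H) ∧ Polynomial.aeval y Q = 0

/-- the variable -/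
abbrev v0 : Fin 1 × (Unit ⊕ (Fin 0 ⊕ Unit)) := (0, Sum.inl ())

theorem few_alg {α : Fin p → ℤ} (hα : ∀ j, α j ≠ 0) (γ : Fin p → ℂ) (n : Fin p → ℤ) {x₀ : ℂ}
    (hx : cnt α γ n x₀ ≠ 0) (L : Set ℂ) (hL : IsCompact L) (hLV : L ⊆ VV α γ) (m : ℕ) (A ε : ℝ) (hε : 0 < ε) :
    ∃ C T₀ : ℝ, ∀ T : ℝ, T₀ ≤ T → ∀ ξ : ℂ, ξ ≠ 0 → ∀ X : Finset ℚ,
      (∀ x ∈ X, (x : ℂ) ∈ L ∧ |(x.num : ℝ)| ≤ T ∧ (x.den : ℝ) ≤ T) →
        ((({x : ℚ | x ∈ X ∧ AlgLe m (T ^ A) (ff α γ n x / ξ)}).ncard : ℕ) : ℝ) ≤ C * T ^ ε := by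
  classical
  set b : Fin 0 → ℝ := fun k => k.elim0 with hb
  obtain ⟨B, C, T₀, -, hT₀, H⟩ := Pool.Agent.Y771.RP.mainS 1 1 (m + 1) m (vv α γ n b) L hL
    (fun y t ht => vv_an α γ n b (fun k => k.elim0) y (hLV ht))
    (fun t ht => locInd hα γ n b (fun k => k.elim0) hx (fun e _ => Subsingleton.elim _ _) t (hLV ht)) A ε hε
  refine ⟨C, T₀, fun T hT ξ hξ X hX => ?_⟩
  have hT0 : 0 < T := by linarith
  have h1 := H ℚ (by simp) (algebraMap ℚ ℂ) (fun i : Fin (m + 1) => (ξ ^ (i : ℕ))⁻¹) T hT X (by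
    intro x hxX
    obtain ⟨h2, h3, h4⟩ := hX x hxX
    refine ⟨h2, (x.num : 𝓞 ℚ), (x.den : 𝓞 ℚ), by exact_mod_cast x.den_nz, fun φ => ?_, ?_⟩
    · constructor
      · simp only [map_intCast]
        rw [Complex.norm_intCast]
        exact h3
      · simp only [map_natCast]
        rw [Complex.norm_natCast]
        exact h4
    · push_cast
      exact (Rat.num_div_den x).symm)
  rw [show (1 - 1 : ℕ) = 0 from rfl, pow_zero, mul_one] at h1
  refine le_trans ?_ h1
  norm_cast
  refine Set.ncard_le_ncard_of_injOn (fun x : ℚ => (fun _ : Fin 1 => x)) ?_ ?_ ?_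
  · rintro x ⟨hxX, Q, hQ0, hQd, hQc, hQr⟩
    refine ⟨⟨fun j => ?_, ?_⟩, fun j => hxX⟩
    · obtain ⟨h2, h3, h4⟩ := hX x hxX
      refine ⟨h2, (x.num : 𝓞 ℚ), (x.den : 𝓞 ℚ), by exact_mod_cast x.den_nz, fun φ => ?_, ?_⟩
      · constructor
        · simp only [map_intCast]
          rw [Complex.norm_intCast]
          exact h3
        · simp only [map_natCast]
          rw [Complex.norm_natCast]
          exact h4
      · push_cast
        exact (Rat.num_div_den x).symm
    · refine ⟨∑ i : Fin (m + 1), MvPolynomial.monomial (Finsupp.single v0 (i : ℕ))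
        ((Q.coeff i : ℂ) * (ξ ^ (i : ℕ))⁻¹), ?_, ?_, Finsupp.single v0 Q.natDegree, ?_, ?_⟩
      · intro w
        refine (MvPolynomial.degreeOf_sum_le _ _ _).trans (Finset.sup_le fun i _ => ?_)
        have hi : (i : ℕ) ≤ m := Nat.lt_succ_iff.1 i.2
        rw [MvPolynomial.degreeOf_le_iff]
        intro u hu
        rw [MvPolynomial.mem_support_iff, MvPolynomial.coeff_monomial] at hu
        have hu1 : Finsupp.single v0 (i : ℕ) = u := by
          by_contra hne
          rw [if_neg hne] at hu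
          exact hu rfl
        rw [← hu1, Finsupp.single_apply]
        split_ifs
        · exact hi
        · exact Nat.zero_le _
      · intro u
        refine ⟨fun i => if Finsupp.single v0 (i : ℕ) = u then (Q.coeff i : 𝓞 ℚ) else 0, fun i φ => ?_, ?_⟩
        · dsimp only
          split_ifs
          · simp only [map_intCast]
            rw [Complex.norm_intCast]
            exact hQc i
          · simp only [map_zero, norm_zero]
            positivity
        · rw [MvPolynomial.coeff_sum]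
          refine Finset.sum_congr rfl fun i _ => ?_
          rw [MvPolynomial.coeff_monomial]
          dsimp only
          split_ifs
          · simp only [map_intCast]
            ring
          · simp only [map_zero, mul_zero]
      · rw [MvPolynomial.coeff_sum]
        have hlt : Q.natDegree < m + 1 := Nat.lt_succ_of_le hQd
        rw [Finset.sum_eq_single (⟨Q.natDegree, hlt⟩ : Fin (m + 1))]
        · rw [MvPolynomial.coeff_monomial, if_pos rfl]
          refine mul_ne_zero ?_ (inv_ne_zero (pow_ne_zero _ hξ))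
          have : Q.coeff Q.natDegree ≠ 0 := Polynomial.leadingCoeff_ne_zero.2 hQ0
          exact_mod_cast this
        · intro i _ hne
          rw [MvPolynomial.coeff_monomial, if_neg]
          intro h5
          apply hne
          ext
          have h6 := congrArg (fun w => w v0) h5
          simpa using h6
        · intro h5
          exact absurd (Finset.mem_univ _) h5
      · have h5 : (MvPolynomial.aeval fun y : Fin 1 × (Unit ⊕ (Fin 0 ⊕ Unit)) => vv α γ n b y.2 ((algebraMap ℚ ℂ) x))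
            (∑ i : Fin (m + 1), MvPolynomial.monomial (Finsupp.single v0 (i : ℕ))
              ((Q.coeff i : ℂ) * (ξ ^ (i : ℕ))⁻¹)) = 0 := by
          rw [map_sum, ← hQr, Polynomial.aeval_eq_sum_range' (Nat.lt_succ_of_le hQd), Finset.sum_range]
          refine Finset.sum_congr rfl fun i _ => ?_
          rw [MvPolynomial.aeval_monomial, Finsupp.prod_single_index
            (h := fun (y : Fin 1 × (Unit ⊕ (Fin 0 ⊕ Unit))) (k : ℕ) => vv α γ n b y.2 ((algebraMap ℚ ℂ) x) ^ k)
            (pow_zero _)]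
          change (Q.coeff i : ℂ) * (ξ ^ (i : ℕ))⁻¹ * ff α γ n ((algebraMap ℚ ℂ) x) ^ (i : ℕ) = _
          rw [div_pow, zsmul_eq_mul]
          simp only [eq_ratCast]
          field_simp
        rw [h5, norm_zero]
        positivity
  · intro x _ y _ h
    exact congrFun h 0
  · refine Set.Finite.subset (Set.finite_range fun x : X => (fun _ : Fin 1 => (x : ℚ))) ?_
    rintro t ⟨-, ht⟩
    refine ⟨⟨t 0, ht 0⟩, ?_⟩
    funext j
    rw [Subsingleton.elim j 0]

end Pool.Agent.X191.RO
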