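import Mathlib

/-!
# Sums of sawtooth functions without jumps vanish
-/

set_option autoImplicit false

namespace Pool.Agent.X191.RO

variable {p : ℕ}

open Classical in
/-- the number of the integers at `x` -/
noncomputable def hc (a : Fin p → ℕ) (g : Fin p → ℝ) (c : Fin p → ℤ) (x : ℝ) : ℤ :=
  ∑ j, c j * (if ∃ k : ℤ, (a j : ℝ) * x + g j = k then 1 else 0)

/-- points where no argument is an integer -/
def NH (a : Fin p → ℕ) (g : Fin p → ℝ) (x : ℝ) : Prop := ∀ j, ∀ k : ℤ, (a j : ℝ) * x + g j ≠ k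

theorem floor_sum (a : Fin p → ℕ) (ha : ∀ j, 1 ≤ a j) (g : Fin p → ℝ) (c : Fin p → ℤ)
    (h0 : ∀ x, hc a g c x = 0) {x y : ℝ} (hx : NH a g x) (_hy : NH a g y) (hxy : y < x) :
    ∑ j, c j * (⌊(a j : ℝ) * x + g j⌋ - ⌊(a j : ℝ) * y + g j⌋) = 0 := by
  classical
  have hap : ∀ j, (0 : ℝ) < a j := fun j => by exact_mod_cast (ha j)
  set I : Fin p → Finset ℤ := fun j => Finset.Ioc ⌊(a j : ℝ) * y + g j⌋ ⌊(a j : ℝ) * x + g j⌋ with hI
  set φ : Fin p → ℤ → ℝ := fun j k => ((k : ℝ) - g j) / a j with hφ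
  set W : Finset ℝ := Finset.univ.biUnion fun j => (I j).image (φ j) with hW
  have hφeq : ∀ j k, (a j : ℝ) * φ j k + g j = k := by
    intro j k
    simp only [hφ]
    field_simp [(hap j).ne']
    ring
  have hmem : ∀ j k, k ∈ I j → y < φ j k ∧ φ j k < x := by
    intro j k hk
    simp only [hI, Finset.mem_Ioc] at hk
    have h1 : (a j : ℝ) * y + g j < k := Int.floor_lt.1 hk.1
    have h2 : (k : ℝ) ≤ (a j : ℝ) * x + g j := Int.le_floor.1 hk.2
    have h3 : (k : ℝ) ≠ (a j : ℝ) * x + g j := fun h => hx j k h.symm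
    have h4 : (k : ℝ) < (a j : ℝ) * x + g j := lt_of_le_of_ne h2 h3
    rw [← hφeq j k] at h1 h4
    constructor
    · exact lt_of_mul_lt_mul_left (by linarith) (hap j).le
    · exact lt_of_mul_lt_mul_left (by linarith) (hap j).le
  have hWin : ∀ h ∈ W, y < h ∧ h < x := by
    intro h hh
    simp only [hW, Finset.mem_biUnion, Finset.mem_univ, true_and, Finset.mem_image] at hh
    obtain ⟨j, k, hk, rfl⟩ := hh
    exact hmem j k hk
  have hfilter : ∀ j, W.filter (fun h => ∃ k : ℤ, (a j : ℝ) * h + g j = k) = (I j).image (φ j) := by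
    intro j
    ext h
    simp only [Finset.mem_filter, Finset.mem_image]
    constructor
    · rintro ⟨hh, k, hk⟩
      obtain ⟨h1, h2⟩ := hWin h hh
      refine ⟨k, ?_, ?_⟩
      · simp only [hI, Finset.mem_Ioc]
        constructor
        · rw [Int.floor_lt, ← hk]
          have := mul_lt_mul_of_pos_left h1 (hap j)
          linarith
        · rw [Int.le_floor, ← hk]
          have := mul_lt_mul_of_pos_left h2 (hap j)
          linarith
      · simp only [hφ]
        rw [← hk]
        field_simp [(hap j).ne']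
        ring
    · rintro ⟨k, hk, rfl⟩
      refine ⟨?_, k, hφeq j k⟩
      simp only [hW, Finset.mem_biUnion, Finset.mem_univ, true_and, Finset.mem_image]
      exact ⟨j, k, hk, rfl⟩
  have hcard : ∀ j, ((I j).image (φ j)).card = (⌊(a j : ℝ) * x + g j⌋ - ⌊(a j : ℝ) * y + g j⌋).toNat := by
    intro j
    rw [Finset.card_image_of_injective]
    · simp only [hI]
      exact Int.card_Ioc _ _
    · intro k l hkl
      have h1 := hφeq j k
      have h2 := hφeq j l
      rw [hkl, h2] at h1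
      exact_mod_cast h1.symm
  have hmono : ∀ j, ⌊(a j : ℝ) * y + g j⌋ ≤ ⌊(a j : ℝ) * x + g j⌋ := by
    intro j
    apply Int.floor_le_floor
    have := mul_lt_mul_of_pos_left hxy (hap j)
    linarith
  have h1 : ∑ h ∈ W, hc a g c h = 0 := Finset.sum_eq_zero fun h _ => h0 h
  unfold hc at h1
  rw [Finset.sum_comm] at h1
  rw [← h1]
  refine Finset.sum_congr rfl fun j _ => ?_
  rw [← Finset.mul_sum]
  congr 1
  rw [Finset.sum_ite, Finset.sum_const_zero, add_zero, Finset.sum_const, hfilter, hcard]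
  have := hmono j
  simp only [nsmul_eq_mul, mul_one]
  omega

/-- the sum of the sawtooth functions -/
noncomputable def DS (a : Fin p → ℕ) (g : Fin p → ℝ) (c : Fin p → ℤ) (x : ℝ) : ℝ :=
  ∑ j, (c j : ℝ) * (Int.fract ((a j : ℝ) * x + g j) - 1 / 2)

theorem DS_diff (a : Fin p → ℕ) (ha : ∀ j, 1 ≤ a j) (g : Fin p → ℝ) (c : Fin p → ℤ)
    (h0 : ∀ x, hc a g c x = 0) {x y : ℝ} (hx : NH a g x) (hy : NH a g y) (hxy : y < x) :
    DS a g c x - DS a g c y = (x - y) * ∑ j, (c j : ℝ) * a j := by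
  have h1 := floor_sum a ha g c h0 hx hy hxy
  have h2 : (∑ j, (c j : ℝ) * ((⌊(a j : ℝ) * x + g j⌋ : ℝ) - ⌊(a j : ℝ) * y + g j⌋)) = 0 := by
    exact_mod_cast h1
  unfold DS
  rw [← Finset.sum_sub_distrib, Finset.mul_sum, ← sub_eq_zero, ← Finset.sum_sub_distrib, ← neg_eq_zero, ← h2,
    ← Finset.sum_neg_distrib]
  refine Finset.sum_congr rfl fun j _ => ?_
  unfold Int.fract
  ring

theorem NH_add_one {a : Fin p → ℕ} {g : Fin p → ℝ} {x : ℝ} (hx : NH a g x) : NH a g (x + 1) := by
  intro j k h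
  refine hx j (k - a j) ?_
  push_cast
  linarith

theorem DS_const (a : Fin p → ℕ) (ha : ∀ j, 1 ≤ a j) (g : Fin p → ℝ) (c : Fin p → ℤ)
    (h0 : ∀ x, hc a g c x = 0) {x y : ℝ} (hx : NH a g x) (hy : NH a g y) : DS a g c x = DS a g c y := by
  have h1 : ∑ j, (c j : ℝ) * a j = 0 := by
    have h2 := DS_diff a ha g c h0 (NH_add_one hx) hx (lt_add_one x)
    have h3 : DS a g c (x + 1) = DS a g c x := by
      unfold DS
      refine Finset.sum_congr rfl fun j _ => ?_
      have e : (a j : ℝ) * (x + 1) + g j = (a j : ℝ) * x + g j + (a j : ℕ) := by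
        ring
      rw [e, Int.fract_add_natCast]
    rw [h3] at h2
    linarith
  rcases lt_trichotomy x y with h | h | h
  · have := DS_diff a ha g c h0 hy hx h
    rw [h1] at this
    linarith
  · rw [h]
  · have := DS_diff a ha g c h0 hx hy h
    rw [h1] at this
    linarith

/-- Hermite's identity -/
theorem hermite (a M : ℕ) (hM : 0 < M) (hc : Nat.Coprime a M) (u : ℝ) :
    ∑ k ∈ Finset.range M, (Int.fract (u + a * k / M) - 1 / 2) = Int.fract (M * u) - 1 / 2 := by
  have hM0 : (0 : ℝ) < M := by exact_mod_cast hM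
  have hMz : (0 : ℤ) < M := by exact_mod_cast hM
  set m : ℤ := ⌊(M : ℝ) * u⌋ with hm
  set δ : ℝ := Int.fract ((M : ℝ) * u) with hδ
  have hu : (M : ℝ) * u = m + δ := (Int.floor_add_fract _).symm
  have hδ0 : 0 ≤ δ := Int.fract_nonneg _
  have hδ1 : δ < 1 := Int.fract_lt_one _
  set φ : ℕ → ℕ := fun k => ((m + a * k) % (M : ℤ)).toNat with hφ
  have hφ0 : ∀ k, ((φ k : ℕ) : ℤ) = (m + a * k) % (M : ℤ) := fun k =>
    Int.toNat_of_nonneg (Int.emod_nonneg _ hMz.ne')
  have hφlt : ∀ k, φ k < M := by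
    intro k
    have h1 := Int.emod_lt_of_pos (m + a * k) hMz
    rw [← hφ0] at h1
    exact_mod_cast h1
  have hfr : ∀ k : ℕ, Int.fract (u + a * k / M) = (φ k + δ) / M := by
    intro k
    rw [Int.fract_eq_iff]
    refine ⟨by positivity, ?_, (m + a * k) / (M : ℤ), ?_⟩
    · rw [div_lt_one hM0]
      have : (φ k : ℝ) + 1 ≤ M := by exact_mod_cast hφlt k
      linarith
    · have h1 := Int.emod_add_mul_ediv (m + a * k) (M : ℤ)
      rw [← hφ0] at h1
      have h2 : (φ k : ℝ) + M * (((m + a * k) / (M : ℤ) : ℤ) : ℝ) = m + a * k := by exact_mod_cast h1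
      field_simp
      linear_combination hu - h2
  have himg : (Finset.range M).image φ = Finset.range M := by
    apply Finset.eq_of_subset_of_card_le
    · intro r hr
      rw [Finset.mem_image] at hr
      obtain ⟨k, -, rfl⟩ := hr
      exact Finset.mem_range.2 (hφlt k)
    · rw [Finset.card_image_of_injOn]
      intro k hk l hl hkl
      have hk' := Finset.mem_range.1 (Finset.mem_coe.1 hk)
      have hl' := Finset.mem_range.1 (Finset.mem_coe.1 hl)
      have h1 : (m + a * k) % (M : ℤ) = (m + a * l) % (M : ℤ) := by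
        rw [← hφ0, ← hφ0]
        exact_mod_cast hkl
      have h2 : (m + a * k) ≡ (m + a * l) [ZMOD M] := h1
      have h3 : (a * k : ℤ) ≡ a * l [ZMOD M] := Int.ModEq.add_left_cancel' m h2
      have h4 : a * k ≡ a * l [MOD M] := by
        rw [← Int.natCast_modEq_iff]
        exact_mod_cast h3
      have h5 : k ≡ l [MOD M] := Nat.ModEq.cancel_left_of_coprime (by rw [Nat.gcd_comm]; exact hc) h4
      have h6 : k % M = l % M := h5
      rwa [Nat.mod_eq_of_lt hk', Nat.mod_eq_of_lt hl'] at h6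
  have hinj : Set.InjOn φ (Finset.range M) := by
    rw [← Finset.card_image_iff, himg]
  have hsum : ∑ k ∈ Finset.range M, (φ k : ℝ) = (M : ℝ) * (M - 1) / 2 := by
    have h1 : ∑ r ∈ (Finset.range M).image φ, (r : ℝ) = ∑ k ∈ Finset.range M, (φ k : ℝ) :=
      Finset.sum_image hinj
    rw [← h1, himg]
    have h2 := Finset.sum_range_id_mul_two M
    have h3 : (∑ r ∈ Finset.range M, (r : ℝ)) * 2 = M * ((M : ℝ) - 1) := by
      have h4 : ((∑ r ∈ Finset.range M, r : ℕ) : ℝ) * 2 = (M : ℝ) * ((M - 1 : ℕ) : ℝ) := by exact_mod_cast h2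
      rw [Nat.cast_sub hM] at h4
      push_cast at h4
      exact h4
    linarith
  simp only [hfr]
  rw [Finset.sum_sub_distrib, ← Finset.sum_div, Finset.sum_add_distrib, hsum]
  simp only [Finset.sum_const, Finset.card_range, nsmul_eq_mul]
  field_simp
  ring

end Pool.Agent.X191.RO
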