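import Mathlib
import Pool.Agent.X191.RO.Saw
import Pool.Agent.X191.RO.Rel

/-!
# The identity of the fractional parts and the count of the integers
-/

set_option autoImplicit false

namespace Pool.Agent.X191.RO

variable {p : ℕ}

theorem DS_zero (a : Fin p → ℕ) (ha : ∀ j, 1 ≤ a j) (g : Fin p → ℝ) (c : Fin p → ℤ)
    (h0 : ∀ x, hc a g c x = 0) {x : ℝ} (hx : NH a g x) : DS a g c x = 0 := by
  classical
  have hap : ∀ j, (0 : ℝ) < a j := fun j => by exact_mod_cast (ha j)
  -- a generic point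
  obtain ⟨y, hy⟩ : ∃ y : ℝ, ∀ q : ℚ, NH a g (y + q) := by
    have hcount : (Set.range fun w : Fin p × ℤ × ℚ => ((w.2.1 : ℝ) - g w.1) / a w.1 - w.2.2).Countable :=
      Set.countable_range _
    obtain ⟨y, hy⟩ := (Set.Countable.dense_compl ℝ hcount).nonempty
    refine ⟨y, fun q j k h => hy ⟨(j, k, q), ?_⟩⟩
    simp only
    rw [← h]
    field_simp [(hap j).ne']
    ring
  have hy0 : NH a g y := by simpa using hy 0
  rw [DS_const a ha g c h0 hx hy0]
  by_contra hne
  have hpos : 0 < |DS a g c y| := abs_pos.2 hne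
  obtain ⟨t, ht⟩ := exists_nat_gt ((∑ j, |(c j : ℝ)|) / |DS a g c y|)
  set Q : ℕ := ∏ j, a j with hQ
  have hQ1 : 1 ≤ Q := by
    have : 0 < ∏ j, a j := Finset.prod_pos fun j _ => ha j
    exact this
  set M : ℕ := t * Q + 1 with hM
  have hM0 : 0 < M := Nat.succ_pos _
  have hMr : (0 : ℝ) < M := by exact_mod_cast hM0
  have hcop : ∀ j, Nat.Coprime (a j) M := by
    intro j
    obtain ⟨w, hw⟩ : a j ∣ t * Q := (Finset.dvd_prod_of_mem _ (Finset.mem_univ j)).mul_left t
    rw [hM, hw, mul_comm]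
    exact (Nat.coprime_mul_right_add_right (a j) 1 w).2 (Nat.coprime_one_right _)
  have h1 : ∀ k ∈ Finset.range M, DS a g c (y + k / M) = DS a g c y := by
    intro k _
    refine DS_const a ha g c h0 ?_ hy0
    have := hy ((k : ℚ) / M)
    push_cast at this
    exact this
  have h2 : ∑ k ∈ Finset.range M, DS a g c (y + k / M) = M * DS a g c y := by
    rw [Finset.sum_congr rfl h1, Finset.sum_const, Finset.card_range, nsmul_eq_mul]
  have h3 : ∑ k ∈ Finset.range M, DS a g c (y + k / M) =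
      ∑ j, (c j : ℝ) * (Int.fract (M * ((a j : ℝ) * y + g j)) - 1 / 2) := by
    unfold DS
    rw [Finset.sum_comm]
    refine Finset.sum_congr rfl fun j _ => ?_
    rw [← Finset.mul_sum, ← hermite (a j) M hM0 (hcop j)]
    congr 1
    refine Finset.sum_congr rfl fun k _ => ?_
    congr 2
    ring
  have h4 : |∑ j, (c j : ℝ) * (Int.fract (M * ((a j : ℝ) * y + g j)) - 1 / 2)| ≤ ∑ j, |(c j : ℝ)| := by
    refine (Finset.abs_sum_le_sum_abs _ _).trans (Finset.sum_le_sum fun j _ => ?_)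
    rw [abs_mul]
    refine mul_le_of_le_one_right (abs_nonneg _) ?_
    have h5 := Int.fract_nonneg (M * ((a j : ℝ) * y + g j))
    have h6 := Int.fract_lt_one (M * ((a j : ℝ) * y + g j))
    rw [abs_le]
    constructor <;> linarith
  rw [← h3, h2, abs_mul, abs_of_pos hMr] at h4
  rw [div_lt_iff₀ hpos] at ht
  have h5 : (t : ℝ) ≤ M := by
    have : t ≤ M := by
      rw [hM]
      nlinarith
    exact_mod_cast this
  nlinarith

theorem exists_cnt (α : Fin p → ℤ) (hα : ∀ j, α j ≠ 0) (γ : Fin p → ℝ) (n : Fin p → ℤ)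
    (h : {x : ℝ | (0 ≤ x ∧ x ≤ 1) ∧
      ∑ j, (n j : ℝ) * Int.fract ((α j : ℝ) * x + γ j) ≠ (∑ j, (n j : ℝ)) / 2}.Infinite) :
    ∃ x₀ : ℂ, cnt α (fun j => (γ j : ℂ)) n x₀ ≠ 0 := by
  classical
  by_contra hcon
  push Not at hcon
  apply h
  -- positive slopes
  set a : Fin p → ℕ := fun j => (α j).natAbs with ha
  set g : Fin p → ℝ := fun j => if 0 < α j then γ j else - γ j with hg
  have ha1 : ∀ j, 1 ≤ a j := by
    intro j
    have := hα j
    simp only [ha]
    omega
  have harg1 : ∀ j, 0 < α j → ∀ x : ℝ, (a j : ℝ) * x + g j = (α j : ℝ) * x + γ j := by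
    intro j hj x
    have h1 : ((α j).natAbs : ℤ) = α j := Int.natAbs_of_nonneg hj.le
    have h2 : ((a j : ℕ) : ℝ) = (α j : ℝ) := by
      simp only [ha]
      rw [← Int.cast_natCast, h1]
    simp only [hg]
    rw [if_pos hj, h2]
  have harg2 : ∀ j, ¬ 0 < α j → ∀ x : ℝ, (a j : ℝ) * x + g j = -((α j : ℝ) * x + γ j) := by
    intro j hj x
    have h3 := hα j
    have h1 : ((α j).natAbs : ℤ) = -(α j) := by omega
    have h2 : ((a j : ℕ) : ℝ) = -(α j : ℝ) := by
      simp only [ha]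
      rw [← Int.cast_natCast, h1, Int.cast_neg]
    simp only [hg]
    rw [if_neg hj, h2]
    ring
  have hiff : ∀ j, ∀ x : ℝ, (∃ k : ℤ, (a j : ℝ) * x + g j = k) ↔ ∃ k : ℤ, (α j : ℝ) * x + γ j = k := by
    intro j x
    by_cases hj : 0 < α j
    · rw [harg1 j hj]
    · rw [harg2 j hj]
      constructor
      · rintro ⟨k, hk⟩
        exact ⟨-k, by push_cast; linarith⟩
      · rintro ⟨k, hk⟩
        exact ⟨-k, by push_cast; linarith⟩
  have h0 : ∀ x, hc a g (sg α n) x = 0 := by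
    intro x
    rw [← hcon (x : ℂ)]
    unfold hc cnt
    refine Finset.sum_congr rfl fun j _ => ?_
    congr 1
    have h1 : (∃ k : ℤ, (a j : ℝ) * x + g j = k) ↔ ∃ k : ℤ, (α j : ℂ) * (x : ℂ) + (γ j : ℂ) = k := by
      rw [hiff]
      refine exists_congr fun k => ?_
      constructor
      · intro h2
        exact_mod_cast congrArg (fun r : ℝ => (r : ℂ)) h2
      · intro h2
        exact_mod_cast h2
    simp only [h1]
  -- the bad set is contained in the finite set of the hits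
  have hfin : (⋃ j : Fin p, (fun k : ℤ => ((k : ℝ) - γ j) / α j) ''
      (Set.Icc (⌊γ j⌋ - |α j| - 1) (⌊γ j⌋ + |α j| + 1) : Set ℤ)).Finite :=
    Set.finite_iUnion fun j => (Set.finite_Icc _ _).image _
  refine hfin.subset ?_
  rintro x ⟨⟨hx0, hx1⟩, hx⟩
  by_contra hnot
  have hNH : ∀ j, ∀ k : ℤ, (α j : ℝ) * x + γ j ≠ k := by
    intro j k hk
    apply hnot
    have hα0 : (α j : ℝ) ≠ 0 := by exact_mod_cast hα j
    refine Set.mem_iUnion.2 ⟨j, k, ⟨?_, ?_⟩, ?_⟩
    · have h1 : -|(α j : ℝ)| ≤ (α j : ℝ) * x := by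
        have h2 : |(α j : ℝ) * x| ≤ |(α j : ℝ)| := by
          rw [abs_mul, abs_of_nonneg hx0]
          exact mul_le_of_le_one_right (abs_nonneg _) hx1
        exact (abs_le.1 (h2.trans le_rfl)).1
      have h2 : (⌊γ j⌋ : ℝ) ≤ γ j := Int.floor_le _
      have h3 : (((⌊γ j⌋ - |α j| - 1 : ℤ)) : ℝ) ≤ k := by
        push_cast
        linarith
      exact_mod_cast h3
    · have h1 : (α j : ℝ) * x ≤ |(α j : ℝ)| := by
        have h2 : |(α j : ℝ) * x| ≤ |(α j : ℝ)| := by
          rw [abs_mul, abs_of_nonneg hx0]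
          exact mul_le_of_le_one_right (abs_nonneg _) hx1
        exact (abs_le.1 (h2.trans le_rfl)).2
      have h2 : γ j < ⌊γ j⌋ + 1 := Int.lt_floor_add_one _
      have h3 : (k : ℝ) ≤ ((⌊γ j⌋ + |α j| + 1 : ℤ) : ℝ) := by
        push_cast
        linarith
      exact_mod_cast h3
    · simp only
      rw [← hk]
      field_simp
      ring
  have hNH' : NH a g x := by
    intro j k hk
    obtain ⟨l, hl⟩ := (hiff j x).1 ⟨k, hk⟩
    exact hNH j l hl
  have h1 := DS_zero a ha1 g (sg α n) h0 hNH'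
  apply hx
  unfold DS at h1
  have h2 : ∀ j, ((sg α n j : ℤ) : ℝ) * (Int.fract ((a j : ℝ) * x + g j) - 1 / 2) =
      (n j : ℝ) * Int.fract ((α j : ℝ) * x + γ j) - n j / 2 := by
    intro j
    by_cases hj : 0 < α j
    · rw [harg1 j hj]
      unfold sg
      rw [if_pos hj]
      ring
    · rw [harg2 j hj, Int.fract_neg]
      · unfold sg
        rw [if_neg hj]
        push_cast
        ring
      · intro h3
        obtain ⟨k, hk⟩ := Int.fract_eq_zero_iff.1 h3
        exact hNH j k hk.symm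
  rw [Finset.sum_congr rfl fun j _ => h2 j, Finset.sum_sub_distrib, ← Finset.sum_div] at h1
  linarith

end Pool.Agent.X191.RO
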